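import Mathlib

set_option autoImplicit false

namespace Pool.Agent.H50

open Monoid

universe u

section Amalgam

variable {ι : Type*} {G : ι → Type*} {H : Type*} [∀ i, Group (G i)] [Group H]
  (φ : ∀ i, H →* G i)

/-- The product in the pushout of a list of letters. -/
def lprod (l : List (Σ i, G i)) : PushoutI φ :=
  (l.map (fun g => PushoutI.of (φ := φ) g.1 g.2)).prod

/-- Reduced lists of letters. -/
def Red (l : List (Σ i, G i)) : Prop :=
  (∀ g ∈ l, g.2 ∉ (φ g.1).range) ∧ l.IsChain (fun a b => a.1 ≠ b.1)

/-- The formal inverse of a list of letters. -/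
def linv (l : List (Σ i, G i)) : List (Σ i, G i) :=
  (l.map (fun g => (⟨g.1, g.2⁻¹⟩ : Σ i, G i))).reverse

theorem lprod_nil : lprod φ [] = 1 := rfl

theorem lprod_cons (g : Σ i, G i) (l : List (Σ i, G i)) :
    lprod φ (g :: l) = PushoutI.of g.1 g.2 * lprod φ l := by
  simp [lprod]

theorem lprod_singleton (g : Σ i, G i) :
    lprod φ [g] = PushoutI.of g.1 g.2 := by
  simp [lprod]

theorem lprod_append (l₁ l₂ : List (Σ i, G i)) :
    lprod φ (l₁ ++ l₂) = lprod φ l₁ * lprod φ l₂ := by
  simp [lprod]

theorem lprod_linv (l : List (Σ i, G i)) : lprod φ (linv l) = (lprod φ l)⁻¹ := by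
  induction l with
  | nil => simp [linv, lprod]
  | cons g l ih =>
    have : linv (g :: l) = linv l ++ [(⟨g.1, g.2⁻¹⟩ : Σ i, G i)] := by simp [linv]
    rw [this, lprod_append, ih, lprod_singleton, lprod_cons φ g l, mul_inv_rev, map_inv]

theorem Red.ne_base {l : List (Σ i, G i)} (hφ : ∀ i, Function.Injective (φ i))
    (hl : Red φ l) (hne : l ≠ []) : lprod φ l ∉ (PushoutI.base φ).range := by
  intro h
  let w : CoprodI.Word G :=
    { toList := l
      ne_one := by
        intro g hg h1
        exact hl.1 g hg (h1 ▸ one_mem _)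
      chain_ne := hl.2 }
  have hw : PushoutI.Reduced φ w := hl.1
  have := hw.eq_empty_of_mem_range hφ (by
    have e : PushoutI.ofCoprodI (φ := φ) w.prod = lprod φ l := by
      simp only [CoprodI.Word.prod, lprod, w]
      rw [map_list_prod, List.map_map]
      congr 1
    rw [e]; exact h)
  apply hne
  have h2 := congrArg CoprodI.Word.toList this
  simpa [w, CoprodI.Word.empty] using h2

theorem exists_red (hφ : ∀ i, Function.Injective (φ i)) (x : PushoutI φ) :
    ∃ (h : H) (l : List (Σ i, G i)), Red φ l ∧ x = PushoutI.base φ h * lprod φ l := by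
  classical
  rcases PushoutI.NormalWord.transversal_nonempty φ hφ with ⟨d⟩
  let w : PushoutI.NormalWord d := PushoutI.NormalWord.equiv x
  have hw : w.prod = x := PushoutI.NormalWord.equiv.symm_apply_apply x
  refine ⟨w.head, w.toList, ⟨?_, w.chain_ne⟩, ?_⟩
  · intro g hg hr
    have h1 := w.normalized g.1 g.2 hg
    have h2 := w.ne_one g hg
    have h3 : (((d.compl g.1).equiv g.2).2 : G g.1) = g.2 :=
      ((d.compl g.1).equiv_snd_eq_self_iff_mem (one_mem _)).2 h1
    have h4 : (((d.compl g.1).equiv g.2).2 : G g.1) = 1 :=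
      ((d.compl g.1).coe_equiv_snd_eq_one_iff_mem (d.one_mem _)).2 hr
    rw [h3] at h4
    exact h2 h4
  · rw [← hw, PushoutI.NormalWord.prod]
    congr 1
    simp only [CoprodI.Word.prod, lprod]
    rw [map_list_prod, List.map_map]
    congr 1

theorem Red.linv {l : List (Σ i, G i)} (hl : Red φ l) : Red φ (linv l) := by
  constructor
  · intro g hg
    simp only [H50.linv, List.mem_reverse, List.mem_map] at hg
    obtain ⟨a, ha, rfl⟩ := hg
    simpa using hl.1 a ha
  · rw [H50.linv, List.isChain_reverse, List.isChain_map]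
    exact hl.2.imp (fun a b h => h.symm)

theorem strip_last (i : ι) (l : List (Σ i, G i)) (hl : Red φ l) :
    ∃ (m : G i) (l' : List (Σ i, G i)), Red φ l' ∧ lprod φ l = lprod φ l' * PushoutI.of i m ∧
      (∀ g ∈ l'.getLast?, g.1 ≠ i) := by
  classical
  rcases List.eq_nil_or_concat l with rfl | ⟨l', g, rfl⟩
  · exact ⟨1, [], hl, by simp, by simp⟩
  · by_cases hg : g.1 = i
    · obtain ⟨j, m⟩ := g
      simp only at hg
      subst hg
      refine ⟨m, l', ⟨fun g hg => hl.1 g (by simp [hg]), ?_⟩, ?_, ?_⟩
      · have := hl.2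
        rw [List.concat_eq_append, List.isChain_append] at this
        exact this.1
      · rw [List.concat_eq_append, lprod_append, lprod_singleton]
      · intro g hg
        have := hl.2
        rw [List.concat_eq_append, List.isChain_append] at this
        exact this.2.2 g hg ⟨j, m⟩ (by simp)
    · refine ⟨1, _, hl, by simp, ?_⟩
      intro g' hg'
      simp at hg'
      rw [← hg']; exact hg

theorem strip_head (i : ι) (l : List (Σ i, G i)) (hl : Red φ l)
    (hlast : ∀ g ∈ l.getLast?, g.1 ≠ i) :
    ∃ (m : G i) (l' : List (Σ i, G i)), Red φ l' ∧ lprod φ l = PushoutI.of i m * lprod φ l' ∧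
      (∀ g ∈ l'.getLast?, g.1 ≠ i) ∧ (∀ g ∈ l'.head?, g.1 ≠ i) := by
  classical
  cases l with
  | nil => exact ⟨1, [], hl, by simp, by simp, by simp⟩
  | cons g l' =>
    by_cases hg : g.1 = i
    · obtain ⟨j, m⟩ := g
      simp only at hg
      subst hg
      have hc := hl.2
      rw [List.isChain_cons] at hc
      refine ⟨m, l', ⟨fun g hg => hl.1 g (by simp [hg]), hc.2⟩, ?_, ?_, ?_⟩
      · rw [lprod_cons]
      · intro g hg
        apply hlast g
        cases l' with
        | nil => simp at hg
        | cons a l'' => simpa using hg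
      · intro g hg
        exact (hc.1 g hg).symm
    · refine ⟨1, _, hl, by simp, hlast, ?_⟩
      intro g' hg'
      simp at hg'
      rw [← hg']; exact hg

/-- The key property of amalgamated products: an element that is not in the factor `G i`
can only conjugate an element of `G i` into `G i` if that element is conjugate in `G i`
into the amalgamated subgroup, and this by a conjugator which depends on `x` only. -/
theorem amalgam_key (hφ : ∀ i, Function.Injective (φ i)) (i : ι) (x : PushoutI φ)
    (hx : x ∉ (PushoutI.of (φ := φ) i).range) :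
    ∃ m : G i, ∀ a : G i, x * PushoutI.of i a * x⁻¹ ∈ (PushoutI.of (φ := φ) i).range →
      m * a * m⁻¹ ∈ (φ i).range := by
  obtain ⟨h, l, hl, hxl⟩ := exists_red φ hφ x
  obtain ⟨m, l₁, hl₁, e₁, hlast₁⟩ := strip_last φ i l hl
  obtain ⟨m₀, l₂, hl₂, e₂, hlast₂, hhead₂⟩ := strip_head φ i l₁ hl₁ hlast₁
  have hx2 : x = PushoutI.of i (φ i h * m₀) * lprod φ l₂ * PushoutI.of i m := by
    rw [hxl, e₁, e₂, map_mul, PushoutI.of_apply_eq_base]
    simp only [mul_assoc]
  have hne : l₂ ≠ [] := by
    rintro rfl
    apply hx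
    rw [hx2, lprod_nil]
    exact ⟨φ i h * m₀ * m, by simp⟩
  refine ⟨m, fun a ha => ?_⟩
  by_contra hcon
  -- the word `l₂ · a' · l₂⁻¹`
  have hchain : Red φ (l₂ ++ [(⟨i, m * a * m⁻¹⟩ : Σ i, G i)] ++ linv l₂) := by
    constructor
    · intro g hg
      simp only [List.mem_append, List.mem_singleton] at hg
      rcases hg with (hg | rfl) | hg
      · exact hl₂.1 g hg
      · exact hcon
      · exact (hl₂.linv φ).1 g hg
    · rw [List.isChain_append, List.isChain_append]
      refine ⟨⟨hl₂.2, by simp, ?_⟩, (hl₂.linv φ).2, ?_⟩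
      · intro g hg g' hg'
        simp at hg'
        subst hg'
        exact hlast₂ g hg
      · intro g hg g' hg'
        simp at hg
        subst hg
        simp only [linv, List.head?_reverse, List.getLast?_map, Option.mem_def,
          Option.map_eq_some_iff] at hg'
        obtain ⟨b, hb, rfl⟩ := hg'
        exact (hlast₂ b hb).symm
  have hprod : lprod φ (l₂ ++ [(⟨i, m * a * m⁻¹⟩ : Σ i, G i)] ++ linv l₂) ∈
      (PushoutI.of (φ := φ) i).range := by
    rw [lprod_append, lprod_append, lprod_singleton, lprod_linv]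
    obtain ⟨b, hb⟩ := ha
    refine ⟨(φ i h * m₀)⁻¹ * b * (φ i h * m₀), ?_⟩
    rw [map_mul, map_mul, hb, hx2]
    simp only [map_mul, map_inv, mul_inv_rev]
    group
  obtain ⟨b, hb⟩ := hprod
  by_cases hbr : b ∈ (φ i).range
  · refine hchain.ne_base φ hφ (by simp) ?_
    rw [← hb]
    obtain ⟨c, rfl⟩ := hbr
    exact ⟨c, (PushoutI.of_apply_eq_base φ i c).symm⟩
  · have hchain2 : Red φ ((l₂ ++ [(⟨i, m * a * m⁻¹⟩ : Σ i, G i)] ++ linv l₂) ++
        [(⟨i, b⁻¹⟩ : Σ i, G i)]) := by
      constructor
      · intro g hg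
        rw [List.mem_append] at hg
        rcases hg with hg | hg
        · exact hchain.1 g hg
        · simp at hg
          subst hg
          simpa using hbr
      · rw [List.isChain_append]
        refine ⟨hchain.2, by simp, ?_⟩
        intro g hg g' hg'
        simp at hg'
        subst hg'
        have hne' : linv l₂ ≠ [] := by simpa [linv] using hne
        rw [List.getLast?_append_of_ne_nil _ hne'] at hg
        simp only [linv, List.getLast?_reverse, List.head?_map, Option.mem_def,
          Option.map_eq_some_iff] at hg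
        obtain ⟨c, hc, rfl⟩ := hg
        exact hhead₂ c hc
    refine hchain2.ne_base φ hφ (by simp) ?_
    rw [lprod_append φ _ [(⟨i, b⁻¹⟩ : Σ i, G i)], ← hb, lprod_singleton, ← map_mul, mul_inv_cancel,
      map_one]
    exact one_mem _

end Amalgam

end Pool.Agent.H50
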