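import Pool.Agent.H50.Amalgam

set_option autoImplicit false

namespace Pool.Agent.H50

open Monoid

universe u

section Two

variable {M K D : Type u} [Group M] [Group K] [Group D]

/-- A two element family of types. -/
def fam (M K : Type u) : Bool → Type u
  | true => M
  | false => K

instance famGroup : ∀ b : Bool, Group (fam M K b)
  | true => inferInstanceAs (Group M)
  | false => inferInstanceAs (Group K)

/-- The family of maps of an amalgam. -/
def famHom (i : D →* M) (j : D →* K) : ∀ b : Bool, D →* fam M K b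
  | true => i
  | false => j

/-- Existence of amalgamated products, with the properties used below. -/
theorem exists_amalgam (i : D →* M) (j : D →* K)
    (hi : Function.Injective i) (hj : Function.Injective j) :
    ∃ (P : Type u) (_ : Group P) (a : M →* P) (b : K →* P),
      Function.Injective a ∧ Function.Injective b ∧ (∀ d, a (i d) = b (j d)) ∧
      (∀ x : P, x ∉ a.range → ∃ m : M, ∀ y : M, x * a y * x⁻¹ ∈ a.range →
        m * y * m⁻¹ ∈ i.range) ∧
      (∀ (Q : Type u) [Group Q] (f : M →* Q) (g : K →* Q), (∀ d, f (i d) = g (j d)) →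
        ∃ h : P →* Q, (∀ y, h (a y) = f y) ∧ ∀ y, h (b y) = g y) := by
  have hφ : ∀ b, Function.Injective (famHom i j b) := by
    rintro (_ | _)
    · exact hj
    · exact hi
  refine ⟨PushoutI (famHom i j), inferInstance,
    (PushoutI.of (φ := famHom i j) true : fam M K true →* _),
    (PushoutI.of (φ := famHom i j) false : fam M K false →* _),
    PushoutI.of_injective hφ true, PushoutI.of_injective hφ false, ?_, ?_, ?_⟩
  · intro d
    exact (PushoutI.of_apply_eq_base (famHom i j) true d).trans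
      (PushoutI.of_apply_eq_base (famHom i j) false d).symm
  · intro x hx
    exact amalgam_key (famHom i j) hφ true x hx
  · intro Q _ f g hfg
    let F : ∀ b : Bool, fam M K b →* Q := fun b => match b with
      | true => f
      | false => g
    have hF : ∀ b, (F b).comp (famHom i j b) = f.comp i := by
      rintro (_ | _)
      · ext d; exact (hfg d).symm
      · rfl
    refine ⟨PushoutI.lift F (f.comp i) hF, ?_, ?_⟩
    · intro y
      exact PushoutI.lift_of F (f.comp i) hF (i := true) y
    · intro y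
      exact PushoutI.lift_of F (f.comp i) hF (i := false) y

/-- Free products of two groups, with the properties used below. -/
theorem exists_free (M K : Type u) [Group M] [Group K] :
    ∃ (P : Type u) (_ : Group P) (a : M →* P) (b : K →* P),
      Function.Injective a ∧ Function.Injective b ∧
      (∀ (x : P) (y : M), y ≠ 1 → x * a y * x⁻¹ ∈ a.range → x ∈ a.range) ∧
      (∀ (Q : Type u) [Group Q] (f : M →* Q) (g : K →* Q),
        ∃ h : P →* Q, (∀ y, h (a y) = f y) ∧ ∀ y, h (b y) = g y) := by
  obtain ⟨P, hP, a, b, ha, hb, _, hkey, hlift⟩ :=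
    exists_amalgam (D := PUnit) (1 : PUnit →* M) (1 : PUnit →* K)
      (Function.injective_of_subsingleton _) (Function.injective_of_subsingleton _)
  refine ⟨P, hP, a, b, ha, hb, ?_, fun Q _ f g => hlift Q f g (by simp)⟩
  intro x y hy hxy
  by_contra hx
  obtain ⟨m, hm⟩ := hkey x hx
  obtain ⟨d, hd⟩ := hm y hxy
  apply hy
  simp only [MonoidHom.one_apply] at hd
  have : m * y * m⁻¹ = 1 := hd.symm
  rw [mul_inv_eq_one] at this
  simpa using this

end Two

section Perm

/-- A permutation is free when all its cycles are infinite. -/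
def FreePerm {X : Type u} (σ : Equiv.Perm X) : Prop :=
  ∀ n : ℤ, n ≠ 0 → ∀ x, (σ ^ n) x ≠ x

theorem FreePerm.exists_equiv {X : Type u} [Nonempty X] {σ : Equiv.Perm X} (hσ : FreePerm σ) :
    ∃ e : X × (X × ℕ) ≃ ℤ × (X × ℕ), ∀ x z, e (σ x, z) = (1 + (e (x, z)).1, (e (x, z)).2) := by
  classical
  let s := Equiv.Perm.SameCycle.setoid σ
  let Ω := Quotient s
  have hΩ : Nonempty Ω := ⟨Quotient.mk s (Classical.arbitrary X)⟩
  let f : ℤ × Ω → X := fun p => (σ ^ p.1) (Quotient.out p.2)
  have hf : Function.Bijective f := by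
    constructor
    · rintro ⟨n, ω⟩ ⟨m, ω'⟩ h
      have h0 : (σ ^ (-m + n)) (Quotient.out ω) = Quotient.out ω' := by
        rw [zpow_add, Equiv.Perm.mul_apply, zpow_neg]
        show (σ ^ m)⁻¹ ((σ ^ n) (Quotient.out ω)) = _
        rw [Equiv.Perm.inv_eq_iff_eq]
        exact h
      have h1 : ω = ω' := by
        rw [← Quotient.out_eq ω, ← Quotient.out_eq ω']
        exact Quotient.sound ⟨-m + n, h0⟩
      subst h1
      have h2 : -m + n = 0 := by
        by_contra hne
        exact hσ _ hne _ h0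
      have h3 : n = m := by omega
      rw [h3]
    · intro x
      obtain ⟨n, hn⟩ : Equiv.Perm.SameCycle σ (Quotient.out (Quotient.mk s x)) x :=
        Quotient.mk_out (s := s) x
      exact ⟨(n, Quotient.mk s x), hn⟩
  let e0 : ℤ × Ω ≃ X := Equiv.ofBijective f hf
  have he0 : ∀ p, σ (e0 p) = e0 (1 + p.1, p.2) := by
    rintro ⟨n, ω⟩
    show σ ((σ ^ n) (Quotient.out ω)) = (σ ^ (1 + n)) (Quotient.out ω)
    rw [zpow_one_add]
    rfl
  have hcard : Nonempty (Ω × (X × ℕ) ≃ X × ℕ) := by
    rw [← Cardinal.eq, Cardinal.mk_prod, Cardinal.lift_id, Cardinal.lift_id]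
    apply Cardinal.mul_eq_right
    · exact Cardinal.aleph0_le_mk _
    · calc Cardinal.mk Ω ≤ Cardinal.mk X := Cardinal.mk_quotient_le
        _ ≤ Cardinal.mk (X × ℕ) := Cardinal.mk_le_of_injective (f := fun x => (x, 0))
            (fun a b h => by simpa using h)
    · exact Cardinal.mk_ne_zero _
  obtain ⟨c⟩ := hcard
  refine ⟨(e0.symm.prodCongr (Equiv.refl _)).trans
    ((Equiv.prodAssoc _ _ _).trans ((Equiv.refl ℤ).prodCongr c)), ?_⟩
  intro x z
  obtain ⟨p, rfl⟩ := e0.surjective x
  rw [he0]
  simp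

/-- Extension of a permutation of `X` to `X × (X × ℕ)`. -/
def extPerm (X : Type u) : Equiv.Perm X →* Equiv.Perm (X × (X × ℕ)) where
  toFun σ := Equiv.prodCongr σ (Equiv.refl _)
  map_one' := by ext x <;> simp
  map_mul' σ τ := by ext x <;> simp

theorem FreePerm.ext_mem {X : Type u} [Nonempty X] {σ τ : Equiv.Perm X} (hσ : FreePerm σ)
    (hτ : FreePerm τ) : extPerm X σ ∈ Subgroup.normalClosure {extPerm X τ} := by
  obtain ⟨e, he⟩ := hσ.exists_equiv
  obtain ⟨e', he'⟩ := hτ.exists_equiv
  have he2 : ∀ w, extPerm X σ (e.symm w) = e.symm (1 + w.1, w.2) := by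
    intro w
    obtain ⟨⟨x, z⟩, rfl⟩ := e.surjective w
    rw [Equiv.symm_apply_apply, ← he]
    simp [extPerm]
  have he2' : ∀ w, extPerm X τ (e'.symm w) = e'.symm (1 + w.1, w.2) := by
    intro w
    obtain ⟨⟨x, z⟩, rfl⟩ := e'.surjective w
    rw [Equiv.symm_apply_apply, ← he']
    simp [extPerm]
  let p : Equiv.Perm (X × (X × ℕ)) := e'.trans e.symm
  have hp : extPerm X σ = p * extPerm X τ * p⁻¹ := by
    ext1 y
    obtain ⟨w, rfl⟩ := e.symm.surjective y
    rw [he2, Equiv.Perm.mul_apply, Equiv.Perm.mul_apply]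
    have : p⁻¹ (e.symm w) = e'.symm w := by
      rw [Equiv.Perm.inv_eq_iff_eq]
      simp [p]
    rw [this, he2']
    simp [p]
  rw [hp]
  exact Subgroup.normalClosure_normal.conj_mem _
    (Subgroup.subset_normalClosure (Set.mem_singleton _)) p

/-- Left translation on the first coordinate. -/
def lft (M : Type u) [Group M] : M →* Equiv.Perm (M × (M →₀ ℤ)) where
  toFun m := Equiv.prodCongr (Equiv.mulLeft m) (Equiv.refl _)
  map_one' := by ext1 x; simp
  map_mul' σ τ := by ext1 x; ext1 <;> simp [mul_assoc]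

/-- Translation of the second coordinate. -/
noncomputable def trn (M : Type u) : Multiplicative (M → (M →₀ ℤ)) →* Equiv.Perm (M × (M →₀ ℤ)) where
  toFun d :=
    { toFun := fun p => (p.1, p.2 + d.toAdd p.1)
      invFun := fun p => (p.1, p.2 - d.toAdd p.1)
      left_inv := fun p => by simp
      right_inv := fun p => by simp }
  map_one' := by ext1 x; simp
  map_mul' σ τ := by
    ext1 x
    simp only [toAdd_mul, Pi.add_apply, Equiv.coe_fn_mk, Equiv.Perm.coe_mul, Function.comp_apply,
      Prod.mk.injEq, true_and]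
    abel

theorem lft_apply (M : Type u) [Group M] (m : M) (p : M × (M →₀ ℤ)) :
    lft M m p = (m * p.1, p.2) := rfl

theorem extPerm_apply (X : Type u) (σ : Equiv.Perm X) (p : X × (X × ℕ)) :
    extPerm X σ p = (σ p.1, p.2) := rfl

theorem trn_apply (M : Type u) (d : M → (M →₀ ℤ)) (p : M × (M →₀ ℤ)) :
    trn M (Multiplicative.ofAdd d) p = (p.1, p.2 + d p.1) := rfl

theorem trn_free (M : Type u) (d : M → (M →₀ ℤ)) (hd : ∀ x, d x ≠ 0) :
    FreePerm (trn M (Multiplicative.ofAdd d)) := by
  intro n hn x h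
  rw [← map_zpow, ← ofAdd_zsmul, trn_apply] at h
  have h2 := congrArg Prod.snd h
  simp only [Pi.smul_apply, add_eq_left, smul_eq_zero] at h2
  rcases h2 with h2 | h2
  · exact hn h2
  · exact hd _ h2

theorem exists_nce (M : Type u) [Group M] :
    ∃ (N : Type u) (_ : Group N) (i : M →* N), Function.Injective i ∧
      ∀ a : M, a ≠ 1 → ∀ b : M, i b ∈ Subgroup.normalClosure {i a} := by
  classical
  have hX : Nonempty (M × (M →₀ ℤ)) := ⟨(1, 0)⟩
  let i : M →* Equiv.Perm ((M × (M →₀ ℤ)) × ((M × (M →₀ ℤ)) × ℕ)) :=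
    (extPerm (M × (M →₀ ℤ))).comp (lft M)
  have hi : ∀ m p, i m p = ((m * p.1.1, p.1.2), p.2) := fun m p => rfl
  refine ⟨Equiv.Perm ((M × (M →₀ ℤ)) × ((M × (M →₀ ℤ)) × ℕ)), inferInstance, i, ?_, ?_⟩
  · intro a b h
    have h1 := DFunLike.congr_fun h ((1, 0), ((1, 0), 0))
    rw [hi, hi] at h1
    simpa using h1
  · intro a ha b
    -- the commutator
    let δ : M → (M →₀ ℤ) := fun x => Finsupp.single x 1
    let e : M → (M →₀ ℤ) := fun _ => Finsupp.single 1 1
    let d : M → (M →₀ ℤ) := fun x => δ (a⁻¹ * x) - δ x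
    have hd : ∀ x, d x ≠ 0 := by
      intro x h
      have h2 := DFunLike.congr_fun h x
      simp only [d, δ, Finsupp.sub_apply, Finsupp.single_apply, Finsupp.zero_apply] at h2
      have : a⁻¹ * x ≠ x := by
        intro h3
        apply ha
        simpa using h3
      simp [this] at h2
    have he : ∀ x, e x ≠ 0 := by
      intro x
      simp [e]
    have hc : trn M (Multiplicative.ofAdd d) =
        lft M a * trn M (Multiplicative.ofAdd δ) * (lft M a)⁻¹ *
          (trn M (Multiplicative.ofAdd δ))⁻¹ := by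
      rw [← map_inv, ← map_inv, ← ofAdd_neg]
      ext1 p
      simp only [Equiv.Perm.mul_apply, trn_apply]
      simp only [lft_apply, Pi.neg_apply, mul_inv_cancel_left, d]
      ext1
      · rfl
      · simp only
        abel
    have hcm : extPerm (M × (M →₀ ℤ)) (trn M (Multiplicative.ofAdd d)) ∈ Subgroup.normalClosure {i a} := by
      rw [hc, map_mul, map_mul, map_mul, map_inv, mul_assoc, mul_assoc]
      have h1 : i a ∈ Subgroup.normalClosure {i a} :=
        Subgroup.subset_normalClosure (Set.mem_singleton _)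
      refine mul_mem h1 ?_
      rw [← mul_assoc]
      exact Subgroup.normalClosure_normal.conj_mem _ (inv_mem h1) _
    have hle : Subgroup.normalClosure {extPerm (M × (M →₀ ℤ)) (trn M (Multiplicative.ofAdd d))} ≤
        Subgroup.normalClosure {i a} := by
      apply Subgroup.normalClosure_le_normal
      simpa using hcm
    have hz : extPerm (M × (M →₀ ℤ)) (trn M (Multiplicative.ofAdd e)) ∈ Subgroup.normalClosure {i a} :=
      hle ((trn_free M e he).ext_mem (trn_free M d hd))
    have hbz : extPerm (M × (M →₀ ℤ)) (lft M b * trn M (Multiplicative.ofAdd e)) ∈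
        Subgroup.normalClosure {i a} := by
      refine hle (FreePerm.ext_mem ?_ (trn_free M d hd))
      intro n hn x h
      have hcomm : Commute (lft M b) (trn M (Multiplicative.ofAdd e)) := by
        ext1 p
        simp only [Equiv.Perm.mul_apply, lft_apply, trn_apply, e]
      rw [hcomm.mul_zpow, ← map_zpow, ← map_zpow, ← ofAdd_zsmul, Equiv.Perm.mul_apply,
        trn_apply, lft_apply] at h
      have h2 := congrArg Prod.snd h
      simp [e, hn] at h2
    have : i b = extPerm (M × (M →₀ ℤ)) (lft M b * trn M (Multiplicative.ofAdd e)) *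
        (extPerm (M × (M →₀ ℤ)) (trn M (Multiplicative.ofAdd e)))⁻¹ := by
      rw [map_mul, mul_assoc, mul_inv_cancel, mul_one]
      rfl
    rw [this]
    exact mul_mem hbz (inv_mem hz)

end Perm

/-- Every group embeds malnormally into a group in which the normal closure of any nontrivial
element of the small group contains the small group. -/
theorem exists_mnce (M : Type u) [Group M] :
    ∃ (S : Type u) (_ : Group S) (i : M →* S), Function.Injective i ∧
      (∀ (x : S) (y : M), y ≠ 1 → x * i y * x⁻¹ ∈ i.range → x ∈ i.range) ∧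
      ∀ a : M, a ≠ 1 → ∀ b : M, i b ∈ Subgroup.normalClosure {i a} := by
  obtain ⟨N, hN, iN, hiN, hncN⟩ := exists_nce M
  obtain ⟨P, hP, a, b, ha, hb, hmal, hlift⟩ := exists_free M N
  obtain ⟨r, hra, hrb⟩ := hlift N iN (MonoidHom.id N)
  obtain ⟨h, hha, hhb⟩ := hlift M (MonoidHom.id M) 1
  obtain ⟨Rh, hRh, iR, hiR, hncR⟩ := exists_nce r.ker
  obtain ⟨S, hS, p, q, hp, hq, hpq, hkey, -⟩ :=
    exists_amalgam r.ker.subtype iR (Subgroup.subtype_injective _) hiR
  refine ⟨S, hS, p.comp a, hp.comp ha, ?_, ?_⟩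
  · intro x y hy hxy
    have hx : x ∈ p.range := by
      by_contra hx
      obtain ⟨m, hm⟩ := hkey x hx
      obtain ⟨z, hz⟩ := hxy
      have h1 := hm (a y) ⟨a z, hz⟩
      rw [Subgroup.range_subtype, MonoidHom.mem_ker] at h1
      simp only [map_mul, map_inv, hra] at h1
      apply hy
      rw [mul_inv_eq_one, mul_eq_left] at h1
      exact hiN (by rw [h1, map_one])
    obtain ⟨x', rfl⟩ := hx
    obtain ⟨z, hz⟩ := hxy
    have h1 : x' * a y * x'⁻¹ = a z := by
      apply hp
      rw [map_mul, map_mul, map_inv]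
      exact hz.symm
    obtain ⟨w, hw⟩ := hmal x' y hy ⟨z, h1.symm⟩
    exact ⟨w, by rw [← hw]; rfl⟩
  · intro a₀ ha₀ b₀
    set K := Subgroup.normalClosure {(p.comp a) a₀} with hK
    have hKn : K.Normal := Subgroup.normalClosure_normal
    have haK : p (a a₀) ∈ K := Subgroup.subset_normalClosure (Set.mem_singleton _)
    have hρmem : ∀ m : M, a m * (b (iN m))⁻¹ ∈ r.ker := by
      intro m
      rw [MonoidHom.mem_ker, map_mul, map_inv, hra, hrb]
      simp
    -- the element `κ`
    let κ : P := (a a₀ * (b (iN a₀))⁻¹) * a a₀ * (a a₀ * (b (iN a₀))⁻¹)⁻¹ * (a a₀)⁻¹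
    have hκ : κ ∈ r.ker := by
      have h1 := hρmem a₀
      have h2 : a a₀ * (a a₀ * (b (iN a₀))⁻¹)⁻¹ * (a a₀)⁻¹ ∈ r.ker :=
        (inferInstance : r.ker.Normal).conj_mem _ (inv_mem h1) _
      have h3 := mul_mem h1 h2
      have : κ = (a a₀ * (b (iN a₀))⁻¹) * (a a₀ * (a a₀ * (b (iN a₀))⁻¹)⁻¹ * (a a₀)⁻¹) := by
        simp only [κ, mul_assoc]
      rw [this]
      exact h3
    have hκ1 : (⟨κ, hκ⟩ : r.ker) ≠ 1 := by
      intro h1
      have h2 : κ = 1 := congrArg Subtype.val h1
      simp only [κ] at h2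
      rw [mul_inv_eq_one] at h2
      obtain ⟨z, hz⟩ := hmal (a a₀ * (b (iN a₀))⁻¹) a₀ ha₀ ⟨a₀, h2.symm⟩
      have h4 : b (iN a₀) = a (z⁻¹ * a₀) := by
        rw [map_mul, map_inv, hz]
        group
      have h3 := congrArg h h4
      rw [hhb, hha] at h3
      simp only [MonoidHom.one_apply, MonoidHom.id_apply] at h3
      apply ha₀
      apply hiN
      apply hb
      rw [map_one, map_one, h4, ← h3, map_one]
    have hκK : q (iR ⟨κ, hκ⟩) ∈ K := by
      rw [← hpq]
      show p κ ∈ K
      simp only [κ]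
      rw [map_mul, map_mul, map_mul, map_inv, map_inv]
      exact mul_mem (hKn.conj_mem _ haK _) (inv_mem haK)
    have hR : ∀ ρ ∈ r.ker, p ρ ∈ K := by
      intro ρ hρ
      have h1 : Subgroup.normalClosure {iR ⟨κ, hκ⟩} ≤ K.comap q := by
        have : (K.comap q).Normal := hKn.comap q
        apply Subgroup.normalClosure_le_normal
        simpa using hκK
      have h2 := h1 (hncR ⟨κ, hκ⟩ hκ1 ⟨ρ, hρ⟩)
      rw [Subgroup.mem_comap, ← hpq] at h2
      exact h2
    have hb : ∀ m : M, m ≠ 1 → p (a m) ∈ K → p (b (iN m)) ∈ K := by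
      intro m _ hm
      have h1 := hR _ (hρmem m)
      rw [map_mul, map_inv] at h1
      have h2 := mul_mem (inv_mem h1) hm
      have h3 : (p (a m) * (p (b (iN m)))⁻¹)⁻¹ * p (a m) = p (b (iN m)) := by group
      rwa [h3] at h2
    have h1 : Subgroup.normalClosure {iN a₀} ≤ K.comap (p.comp b) := by
      have : (K.comap (p.comp b)).Normal := hKn.comap (p.comp b)
      apply Subgroup.normalClosure_le_normal
      simpa using hb a₀ ha₀ haK
    have h2 : p (b (iN b₀)) ∈ K := h1 (hncN a₀ ha₀ b₀)
    have h3 := mul_mem (hR _ (hρmem b₀)) h2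
    rw [← map_mul, inv_mul_cancel_right] at h3
    exact h3

end Pool.Agent.H50
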