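import Pool.Agent.H50.Embed

set_option autoImplicit false

namespace Pool.Agent.H50

universe u

section Wreath

variable (G L : Type u) [Group G]

/-- The cyclic group of order `4`. -/
abbrev C4 : Type := Multiplicative (ZMod 4)

/-- The generator of the cyclic group of order `4`. -/
def gen4 : C4 := Multiplicative.ofAdd 1

theorem C4_sq (x y : C4) (h : x ^ 2 ≠ 1 ↔ y ^ 2 ≠ 1) : x ^ 2 = y ^ 2 := by
  revert x y
  decide

theorem gen4_ne : gen4 ≠ 1 := by decide

theorem gen4_sq_ne : gen4 ^ 2 ≠ 1 := by decide

theorem gen4_sq_sq : (gen4 ^ 2) ^ 2 = 1 := by decide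

/-- The base group of the wreath product. -/
abbrev BaseGp : Type u := G → L → C4

/-- The shift action. -/
def shiftAct : G →* MulAut (BaseGp G L) where
  toFun g :=
    { toFun := fun v h l => v (g⁻¹ * h) l
      invFun := fun v h l => v (g * h) l
      left_inv := fun v => by funext h l; simp
      right_inv := fun v => by funext h l; simp
      map_mul' := fun v w => rfl }
  map_one' := by
    apply MulEquiv.ext
    intro v
    funext h l
    show v (1⁻¹ * h) l = v h l
    simp
  map_mul' g g' := by
    apply MulEquiv.ext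
    intro v
    funext h l
    show v ((g * g')⁻¹ * h) l = v (g'⁻¹ * (g⁻¹ * h)) l
    simp [mul_assoc]

theorem shiftAct_apply (g : G) (v : BaseGp G L) (h : G) (l : L) :
    shiftAct G L g v h l = v (g⁻¹ * h) l := rfl

/-- The unrestricted wreath product. -/
abbrev Wr : Type u := BaseGp G L ⋊[shiftAct G L] G

/-- The group `M₀`. -/
abbrev M0 : Type u := Wr G L × Multiplicative ℤ

variable {G L}

/-- The inclusion of `G` in `M₀`. -/
def gM : G →* M0 G L := (MonoidHom.inl _ _).comp SemidirectProduct.inr

/-- The inclusion of the base group in `M₀`. -/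
def uM : BaseGp G L →* M0 G L := (MonoidHom.inl _ _).comp SemidirectProduct.inl

/-- The projection of `M₀` to `G`. -/
def prG : M0 G L →* G := SemidirectProduct.rightHom.comp (MonoidHom.fst _ _)

theorem prG_gM (g : G) : prG (L := L) (gM g) = g := rfl

theorem prG_uM (v : BaseGp G L) : prG (uM v) = 1 := rfl

theorem gM_injective : Function.Injective (gM (G := G) (L := L)) := by
  intro a b h
  have := congrArg prG h
  simpa [prG_gM] using this

theorem uM_injective : Function.Injective (uM (G := G) (L := L)) := by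
  intro a b h
  exact SemidirectProduct.inl_injective (congrArg Prod.fst h)

/-- Conjugation on the base group only depends on the projection to `G`. -/
theorem conj_uM (x : M0 G L) (v : BaseGp G L) :
    x * uM v * x⁻¹ = uM (shiftAct G L (prG x) v) := by
  obtain ⟨⟨w, g⟩, n⟩ := x
  ext1
  · ext1
    · funext h l
      simp [uM, prG, SemidirectProduct.mul_left, SemidirectProduct.inv_left, mul_comm]
    · simp [uM]
  · simp [uM]

/-- The subgroup `D`. -/
def DD (F : G → Finset L) : Subgroup (BaseGp G L) where
  carrier := {v | ∀ g, g ≠ 1 → ∀ l, (v g l) ^ 2 = 1 ∧ (v g l ≠ 1 → l ∈ F g)}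
  one_mem' := by
    intro g _ l
    simp
  mul_mem' := by
    intro v w hv hw g hg l
    obtain ⟨h1, h2⟩ := hv g hg l
    obtain ⟨h3, h4⟩ := hw g hg l
    refine ⟨by simp [mul_pow, h1, h3], fun h => ?_⟩
    by_contra hl
    apply h
    have h5 : v g l = 1 := by_contra fun h6 => hl (h2 h6)
    have h6 : w g l = 1 := by_contra fun h6 => hl (h4 h6)
    simp [h5, h6]
  inv_mem' := by
    intro v hv g hg l
    obtain ⟨h1, h2⟩ := hv g hg l
    refine ⟨by simp [inv_pow, h1], fun h => h2 ?_⟩
    simpa using h

end Wreath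

theorem reduction {G : Type u} [Group G] (α : G →* G)
    (hα : ∀ (H : Type u) [Group H] (f : G →* H), ∃ β : H →* H, β.comp f = f.comp α)
    (h1 : α ≠ 1)
    {L : Type u} [Nonempty L] (F : G → Finset L) :
    Function.Injective α ∧ ∃ (c : G) (τ : Set L → Set L), Function.Injective τ ∧
      ∀ g, g ≠ 1 → ∀ s : Set L, s ⊆ F g → τ s ⊆ F (c * α g * c⁻¹) := by
  classical
  -- the groups
  let D := DD F
  let T : Type u := M0 G L → Multiplicative (ZMod 2)
  let iD : D →* M0 G L := uM.comp D.subtype
  have hiD : Function.Injective iD := uM_injective.comp (Subgroup.subtype_injective _)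
  let jD : D →* D × T := MonoidHom.inl D T
  have hjD : Function.Injective jD := fun x y h => congrArg Prod.fst h
  obtain ⟨M1, hM1, a, b, ha, hb, hab, hkey, -⟩ := exists_amalgam iD jD hiD hjD
  obtain ⟨S, hS, e, he, hmal, hnc⟩ := exists_mnce M1
  let f : G →* S := e.comp (a.comp gM)
  have hf : Function.Injective f := he.comp (ha.comp gM_injective)
  obtain ⟨β, hβ⟩ := hα S f
  have hβf : ∀ g, β (e (a (gM g))) = e (a (gM (α g))) := fun g => DFunLike.congr_fun hβ g
  obtain ⟨g₀, hg₀⟩ : ∃ g, α g ≠ 1 := by
    by_contra hcon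
    push Not at hcon
    exact h1 (MonoidHom.ext hcon)
  -- injectivity
  have hinj : Function.Injective (β.comp e) := by
    rw [injective_iff_map_eq_one]
    intro y hy
    by_contra hy1
    apply hg₀
    have h2 : e (a (gM g₀)) ∈ β.ker := by
      have h3 : Subgroup.normalClosure {e y} ≤ β.ker := by
        apply Subgroup.normalClosure_le_normal
        simpa using hy
      exact h3 (hnc y hy1 _)
    rw [MonoidHom.mem_ker, hβf] at h2
    apply hf
    rw [map_one]
    exact h2
  have hαinj : Function.Injective α := by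
    rw [injective_iff_map_eq_one]
    intro g hg
    have h2 := hβf g
    rw [hg, map_one, map_one, map_one] at h2
    have h3 : a (gM g) = 1 := by
      apply hinj
      rw [map_one]
      exact h2
    have h4 : gM g = (1 : M0 G L) := ha (by rw [h3, map_one])
    exact gM_injective (by rw [h4, map_one])
  refine ⟨hαinj, ?_⟩
  -- elements of `D` have exponent `4` and project trivially
  have hD4 : ∀ d : D, iD d ^ 4 = 1 := by
    intro d
    rw [← map_pow]
    have : d ^ 4 = 1 := by
      apply Subtype.ext
      funext g l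
      have h5 : ∀ x : C4, x ^ 4 = 1 := by decide
      exact h5 _
    rw [this, map_one]
  have hDpr : ∀ d : D, prG (iD d) = 1 := fun d => rfl
  -- step 1
  let φ₀ : M0 G L := (1, Multiplicative.ofAdd 1)
  have hφ₀ : ∀ x : M0 G L, Commute φ₀ x := by
    intro x
    ext1
    · simp [φ₀]
    · exact mul_comm _ _
  obtain ⟨x₀, hx₀⟩ : ∃ x₀ : M0 G L, β (e (a φ₀)) = e (a x₀) := by
    have hcomm : β (e (a φ₀)) * e (a (gM (α g₀))) * (β (e (a φ₀)))⁻¹ = e (a (gM (α g₀))) := by
      rw [← hβf, ← map_mul, ← map_mul, ← map_mul, (hφ₀ _).eq, mul_inv_eq_iff_eq_mul, map_mul,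
        map_mul, map_mul]
    have hne : a (gM (α g₀)) ≠ 1 := by
      intro h
      apply hg₀
      apply gM_injective (L := L)
      apply ha
      rw [h, map_one, map_one]
    obtain ⟨x₁, hx₁⟩ := hmal _ _ hne (by rw [hcomm]; exact ⟨_, rfl⟩)
    rw [← hx₁] at hcomm ⊢
    rw [← map_inv, ← map_mul, ← map_mul] at hcomm
    have hcomm2 := he hcomm
    by_cases hx₁a : x₁ ∈ a.range
    · obtain ⟨x₀, rfl⟩ := hx₁a
      exact ⟨x₀, rfl⟩
    · exfalso
      obtain ⟨m, hm⟩ := hkey x₁ hx₁a
      obtain ⟨d, hd⟩ := hm (gM (α g₀)) (by rw [hcomm2]; exact ⟨_, rfl⟩)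
      have := congrArg prG hd
      rw [hDpr, map_mul, map_mul, prG_gM, map_inv] at this
      apply hg₀
      have h3 := this.symm
      rw [mul_inv_eq_one, mul_eq_left] at h3
      exact h3
  have hx₀4 : x₀ ^ 4 ≠ 1 := by
    intro h
    have h2 : β (e (a (φ₀ ^ 4))) = 1 := by
      rw [map_pow, map_pow, map_pow, hx₀, ← map_pow, ← map_pow, h, map_one, map_one]
    have h3 : a (φ₀ ^ 4) = 1 := hinj (by rw [map_one]; exact h2)
    have h4 : φ₀ ^ 4 = 1 := ha (by rw [h3, map_one])
    have h5 := congrArg (fun p : M0 G L => Multiplicative.toAdd p.2) h4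
    simp [φ₀] at h5
  have hx₀1 : a x₀ ≠ 1 := by
    intro h
    apply hx₀4
    have : x₀ = 1 := ha (by rw [h, map_one])
    rw [this, one_pow]
  -- step 2 : the images of the elements of `M₀` lie in `M₀`
  have hB0 : ∀ w : M0 G L, β (e (a w)) ∈ (e.comp a).range := by
    intro w
    have hcomm : β (e (a w)) * e (a x₀) * (β (e (a w)))⁻¹ = e (a x₀) := by
      rw [← hx₀, ← map_mul, ← map_mul, ← map_mul, ← (hφ₀ _).eq, mul_inv_eq_iff_eq_mul, map_mul,
        map_mul, map_mul]
    obtain ⟨x₁, hx₁⟩ := hmal _ _ hx₀1 (by rw [hcomm]; exact ⟨_, rfl⟩)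
    rw [← hx₁] at hcomm ⊢
    rw [← map_inv, ← map_mul, ← map_mul] at hcomm
    have hcomm2 := he hcomm
    by_cases hx₁a : x₁ ∈ a.range
    · obtain ⟨x₂, rfl⟩ := hx₁a
      exact ⟨x₂, rfl⟩
    · exfalso
      obtain ⟨m, hm⟩ := hkey x₁ hx₁a
      obtain ⟨d, hd⟩ := hm x₀ (by rw [hcomm2]; exact ⟨_, rfl⟩)
      have h3 := hD4 d
      rw [hd, conj_pow, mul_inv_eq_one, mul_eq_left] at h3
      exact hx₀4 h3
  let B : M0 G L →* M0 G L :=
    ((MonoidHom.ofInjective (he.comp ha : Function.Injective (e.comp a))).symm.toMonoidHom).comp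
      ((β.comp (e.comp a)).codRestrict (e.comp a).range hB0)
  have hB : ∀ w, e (a (B w)) = β (e (a w)) := by
    intro w
    have := MonoidHom.apply_ofInjective_symm (he.comp ha : Function.Injective (e.comp a))
      ((β.comp (e.comp a)).codRestrict (e.comp a).range hB0 w)
    exact this
  have hea : Function.Injective fun w => e (a w) := he.comp ha
  have hBinj : Function.Injective B := by
    intro x y hxy
    apply ha
    apply hinj
    show β (e (a x)) = β (e (a y))
    rw [← hB, ← hB, hxy]
  have hBg : ∀ g, B (gM g) = gM (α g) := by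
    intro g
    apply hea
    show e (a (B (gM g))) = e (a (gM (α g)))
    rw [hB, hβf]
  -- step 3 : the lock
  obtain ⟨m, hm⟩ : ∃ m : M0 G L, ∀ d : D, m * B (iD d) * m⁻¹ ∈ iD.range := by
    -- a nontrivial element of `D`
    obtain ⟨d₀, hd₀⟩ : ∃ d₀ : D, d₀ ≠ 1 := by
      refine ⟨⟨fun g _ => if g = 1 then gen4 else 1, ?_⟩, ?_⟩
      · intro g hg l
        simp [hg]
      · intro h
        have h2 := congrFun (congrFun (congrArg Subtype.val h) 1) (Classical.arbitrary L)
        simp at h2
        exact gen4_ne h2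
    have hab' : ∀ d : D, a (iD d) = b (d, 1) := hab
    have hcomm : ∀ (t : T) (d : D), a (iD d) * b (1, t) = b (1, t) * a (iD d) := by
      intro t d
      rw [hab', ← map_mul, ← map_mul]
      simp
    have hcomm2 : ∀ (t : T) (d : D), β (e (b (1, t))) * e (a (B (iD d))) *
        (β (e (b (1, t))))⁻¹ = e (a (B (iD d))) := by
      intro t d
      rw [hB, ← map_mul, ← map_mul, ← hcomm, mul_inv_eq_iff_eq_mul, map_mul, map_mul]
    have hne : a (B (iD d₀)) ≠ 1 := by
      intro h
      apply hd₀
      apply hiD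
      apply hBinj
      apply ha
      rw [h, map_one, map_one, map_one]
    have hrange : ∀ t : T, β (e (b (1, t))) ∈ e.range := by
      intro t
      exact hmal _ _ hne (by rw [hcomm2]; exact ⟨_, rfl⟩)
    choose y hy using hrange
    by_cases hall : ∀ t, y t ∈ a.range
    · exfalso
      choose z hz using hall
      have hzinj : Function.Injective z := by
        intro t t' htt
        have h1 : y t = y t' := by rw [← hz, ← hz, htt]
        have h2 : β (e (b (1, t))) = β (e (b (1, t'))) := by rw [← hy, ← hy, h1]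
        have h3 : b (1, t) = b (1, t') := hinj h2
        exact congrArg Prod.snd (hb h3)
      let ind : Set (M0 G L) → T := fun s x => if x ∈ s then Multiplicative.ofAdd 1 else 1
      have hind : Function.Injective ind := by
        intro s s' hss
        ext x
        have h1 := congrFun hss x
        have h01 : (Multiplicative.ofAdd (1 : ZMod 2)) ≠ 1 := by decide
        by_cases hx : x ∈ s
        · by_cases hx' : x ∈ s'
          · simp [hx, hx']
          · simp only [ind, hx, hx', if_true, if_false] at h1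
            exact absurd h1 h01
        · by_cases hx' : x ∈ s'
          · simp only [ind, hx, hx', if_true, if_false] at h1
            exact absurd h1.symm h01
          · simp [hx, hx']
      exact Function.cantor_injective _ (hzinj.comp hind)
    · push Not at hall
      obtain ⟨t, ht⟩ := hall
      obtain ⟨m, hm⟩ := hkey (y t) ht
      refine ⟨m, fun d => hm _ ?_⟩
      refine ⟨B (iD d), ?_⟩
      apply he
      rw [map_mul, map_mul, map_inv, hy]
      exact (hcomm2 t d).symm
  -- step 4 : reading off the conclusion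
  choose δ hδ using hm
  have hB2 : ∀ (w x : M0 G L), m * B (w * x) * m⁻¹ = (m * B w * m⁻¹) * (m * B x * m⁻¹) := by
    intro w x
    rw [map_mul]
    group
  have hδinj : Function.Injective δ := by
    intro d d' h
    apply hiD
    apply hBinj
    have h2 : m * B (iD d) * m⁻¹ = m * B (iD d') * m⁻¹ := by rw [← hδ, ← hδ, h]
    simpa using h2
  have hδmul : ∀ d d' : D, δ (d * d') = δ d * δ d' := by
    intro d d'
    apply hiD
    rw [hδ, map_mul, map_mul, map_mul, hδ, hδ]
    group
  have hδsq : ∀ d : D, δ (d ^ 2) = δ d ^ 2 := by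
    intro d
    rw [pow_two, pow_two, hδmul]
  let c := prG m
  -- action
  have hact : ∀ (g : G) (d d' : D), (d' : BaseGp G L) = shiftAct G L g d →
      ((δ d' : D) : BaseGp G L) = shiftAct G L (c * α g * c⁻¹) (δ d) := by
    intro g d d' hd'
    apply uM_injective
    have e1 : uM (δ d' : BaseGp G L) = iD (δ d') := rfl
    have e2 : iD d' = gM g * iD d * (gM g)⁻¹ := by
      show uM (d' : BaseGp G L) = gM g * uM (d : BaseGp G L) * (gM g)⁻¹
      rw [conj_uM, prG_gM, hd']
    have e3 : c * α g * c⁻¹ = prG (m * gM (α g) * m⁻¹) := by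
      rw [map_mul, map_mul, map_inv, prG_gM]
    rw [e1, hδ, e2, e3, ← conj_uM]
    have e4 : uM (δ d : BaseGp G L) = m * B (iD d) * m⁻¹ := (hδ d)
    rw [e4, map_mul, map_mul, map_inv, hBg]
    group
  -- the indicator elements
  let us : Set L → D := fun s => ⟨fun g l => if g = 1 ∧ l ∈ s then gen4 else 1, by
    intro g hg l
    simp [hg]⟩
  have hus : ∀ s g l, ((us s : D) : BaseGp G L) g l = if g = 1 ∧ l ∈ s then gen4 else 1 :=
    fun s g l => rfl
  let τ : Set L → Set L := fun s => {l | ((δ (us s) : D) : BaseGp G L) 1 l ^ 2 ≠ 1}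
  refine ⟨c, τ, ?_, ?_⟩
  · intro s s' hss
    have h2 : δ (us s) ^ 2 = δ (us s') ^ 2 := by
      apply Subtype.ext
      funext g l
      show ((δ (us s) : D) : BaseGp G L) g l ^ 2 = ((δ (us s') : D) : BaseGp G L) g l ^ 2
      by_cases hg : g = 1
      · subst hg
        apply C4_sq
        have := Set.ext_iff.1 hss l
        exact this
      · rw [((δ (us s)).2 g hg l).1, ((δ (us s')).2 g hg l).1]
    rw [← hδsq, ← hδsq] at h2
    have h3 := hδinj h2
    ext l
    have h4 : (((us s) ^ 2 : D) : BaseGp G L) 1 l = (((us s') ^ 2 : D) : BaseGp G L) 1 l := by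
      rw [h3]
    have h5 : ∀ s, (((us s) ^ 2 : D) : BaseGp G L) 1 l = (if l ∈ s then gen4 else 1) ^ 2 := by
      intro s
      show ((us s : D) : BaseGp G L) 1 l ^ 2 = _
      rw [hus]
      simp
    rw [h5, h5] at h4
    by_cases hl : l ∈ s
    · by_cases hl' : l ∈ s'
      · simp [hl, hl']
      · simp only [hl, hl', if_true, if_false, one_pow] at h4
        exact absurd h4 gen4_sq_ne
    · by_cases hl' : l ∈ s'
      · simp only [hl, hl', if_true, if_false, one_pow] at h4
        exact absurd h4.symm gen4_sq_ne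
      · simp [hl, hl']
  · intro g hg s hs l hl
    have hd' : shiftAct G L g ((us s ^ 2 : D) : BaseGp G L) ∈ D := by
      intro h hh l'
      have e1 : shiftAct G L g ((us s ^ 2 : D) : BaseGp G L) h l' =
          (if g⁻¹ * h = 1 ∧ l' ∈ s then gen4 else 1) ^ 2 := by
        rw [shiftAct_apply]
        show ((us s : D) : BaseGp G L) (g⁻¹ * h) l' ^ 2 = _
        rw [hus]
      rw [e1]
      by_cases hc : g⁻¹ * h = 1 ∧ l' ∈ s
      · rw [if_pos hc]
        refine ⟨gen4_sq_sq, fun _ => ?_⟩
        have : h = g := by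
          have := hc.1
          rw [inv_mul_eq_one] at this
          exact this.symm
        rw [this]
        exact hs hc.2
      · rw [if_neg hc]
        simp
    have h1 := hact g (us s ^ 2) ⟨_, hd'⟩ rfl
    have hne : c * α g * c⁻¹ ≠ 1 := by
      intro h
      rw [mul_inv_eq_one, mul_eq_left] at h
      exact hg (hαinj (by rw [h, map_one]))
    have h2 := ((δ ⟨_, hd'⟩).2 _ hne l).2
    rw [h1] at h2
    apply h2
    rw [shiftAct_apply, inv_mul_cancel, hδsq]
    exact hl

end Pool.Agent.H50
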