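import Mathlib

set_option autoImplicit false

namespace Pool.Agent.H50

universe u

set_option linter.unusedSimpArgs false
set_option linter.unusedTactic false
set_option linter.unreachableTactic false

section Ladder

variable (P : Type u) [LinearOrder P]

/-- Points which are suprema of strictly increasing sequences. -/
def IsLim {P : Type u} [LinearOrder P] (ε : P) : Prop :=
  ∃ s : ℕ → P, StrictMono s ∧ IsLUB (Set.range s) ε

/-- A chosen ladder. -/
noncomputable def lad {P : Type u} [LinearOrder P] {ε : P} (h : IsLim ε) : ℕ → P :=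
  Classical.choose h

theorem lad_mono {P : Type u} [LinearOrder P] {ε : P} (h : IsLim ε) : StrictMono (lad h) :=
  (Classical.choose_spec h).1

theorem lad_lub {P : Type u} [LinearOrder P] {ε : P} (h : IsLim ε) :
    IsLUB (Set.range (lad h)) ε :=
  (Classical.choose_spec h).2

theorem lad_lt {P : Type u} [LinearOrder P] {ε : P} (h : IsLim ε) (n : ℕ) : lad h n < ε :=
  lt_of_lt_of_le (lad_mono h (Nat.lt_succ_self n)) ((lad_lub h).1 ⟨_, rfl⟩)

/-- The index set of the rigid family. -/
inductive Idx : Type u
  | pt (p : P) : Idx
  | lt (i j : P) (h : i < j) : Idx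
  | ladder (ε : P) (h : IsLim ε) (n : ℕ) : Idx
  | base (ε : P) (h : IsLim ε) : Idx

variable {P}

open Classical in
/-- The weights. -/
noncomputable def wt : Idx P → P → ℕ
  | .pt q, p => if p = q then 10 else 0
  | .lt i j _, p => if p = i then 1 else if p = j then 6 else 0
  | .ladder ε h n, p =>
      if p = lad h n then 2 else if p = lad h (n + 1) then 3 else if p = ε then 4 else 0
  | .base ε h, p => if p = lad h 0 then 5 else if p = ε then 1 else 0

open Classical in
/-- The supports of the weights. -/
noncomputable def spt : Idx P → Finset P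
  | .pt q => {q}
  | .lt i j _ => {i, j}
  | .ladder ε h n => {lad h n, lad h (n + 1), ε}
  | .base ε h => {lad h 0, ε}

theorem wt_le (k : Idx P) (p : P) : wt k p ≤ 10 := by
  cases k <;> simp only [wt] <;> split_ifs <;> omega

theorem wt_spt (k : Idx P) (p : P) (h : wt k p ≠ 0) : p ∈ spt k := by
  classical
  cases k <;> simp only [wt, spt] at h ⊢ <;> split_ifs at h <;> simp_all

open Classical in
/-- The rigid family of finite sets. -/
noncomputable def FF (k : Idx P) : Finset (P × ℕ) :=
  (spt k ×ˢ Finset.range 10).filter (fun x => x.2 < wt k x.1)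

theorem mem_FF (k : Idx P) (x : P × ℕ) : x ∈ FF k ↔ x.2 < wt k x.1 := by
  classical
  simp only [FF, Finset.mem_filter, Finset.mem_product, Finset.mem_range]
  constructor
  · exact fun h => h.2
  · intro h
    exact ⟨⟨wt_spt k _ (by omega), lt_of_lt_of_le h (wt_le k _)⟩, h⟩

open Classical in
theorem card_inter_pt (k : Idx P) (p : P) : (FF k ∩ FF (.pt p)).card = wt k p := by
  have : FF k ∩ FF (.pt p) = (Finset.range (wt k p)).image (fun c => (p, c)) := by
    ext x
    simp only [Finset.mem_inter, mem_FF, Finset.mem_image, Finset.mem_range]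
    constructor
    · rintro ⟨h1, h2⟩
      have h3 : x.1 = p := by
        by_contra h4
        simp [wt, h4] at h2
      exact ⟨x.2, by rw [← h3]; exact h1, by rw [← h3]⟩
    · rintro ⟨c, hc, rfl⟩
      refine ⟨hc, ?_⟩
      have := wt_le k p
      simp only [wt, if_true]
      omega
  rw [this, Finset.card_image_of_injective _ (Prod.mk_right_injective p), Finset.card_range]

open Classical in
theorem card_FF_pt (p : P) : (FF (.pt p)).card = 10 := by
  have := card_inter_pt (.pt p) p
  rw [Finset.inter_self] at this
  rw [this]
  simp [wt]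

open Classical in
theorem card_FF_le (k : Idx P) : (FF k).card ≤ ∑ p ∈ spt k, wt k p := by
  calc (FF k).card ≤ ((spt k).biUnion
        (fun p => (Finset.range (wt k p)).image (fun c => (p, c)))).card := by
        apply Finset.card_le_card
        intro x hx
        rw [mem_FF] at hx
        rw [Finset.mem_biUnion]
        refine ⟨x.1, wt_spt k _ (by omega), ?_⟩
        rw [Finset.mem_image]
        exact ⟨x.2, Finset.mem_range.2 hx, rfl⟩
    _ ≤ ∑ p ∈ spt k, ((Finset.range (wt k p)).image (fun c => (p, c))).card :=
        Finset.card_biUnion_le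
    _ ≤ ∑ p ∈ spt k, wt k p := by
        apply Finset.sum_le_sum
        intro p _
        exact Finset.card_image_le.trans (by simp)

open Classical in
theorem card_FF_lt (k : Idx P) (hk : ∀ p, k ≠ .pt p) : (FF k).card < 10 := by
  refine lt_of_le_of_lt (card_FF_le k) ?_
  cases k with
  | pt p => exact absurd rfl (hk p)
  | lt i j h =>
    simp only [spt]
    rw [Finset.sum_pair h.ne]
    simp [wt, h.ne']
  | ladder ε h n =>
    simp only [spt]
    have h1 : lad h n ≠ lad h (n + 1) := (lad_mono h (Nat.lt_succ_self n)).ne
    have h2 : lad h n ≠ ε := (lad_lt h n).ne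
    have h3 : lad h (n + 1) ≠ ε := (lad_lt h (n + 1)).ne
    rw [Finset.sum_insert (by simp [h1, h2]), Finset.sum_pair h3]
    simp [wt, h1.symm, h2.symm, h3.symm]
  | base ε h =>
    simp only [spt]
    have h2 : lad h 0 ≠ ε := (lad_lt h 0).ne
    rw [Finset.sum_pair h2]
    simp [wt, h2.symm]

open Classical in
theorem rigid_idx [WellFoundedLT P] [OrderTop P] (π : Idx P → Idx P)
    (hπ : Function.Injective π)
    (hc : ∀ i j, (FF i ∩ FF j).card ≤ (FF (π i) ∩ FF (π j)).card) (k : Idx P) : π k = k := by
  -- points go to points
  have h1 : ∀ p, ∃ q, π (.pt p) = .pt q := by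
    intro p
    by_contra hcon
    push Not at hcon
    have h2 := hc (.pt p) (.pt p)
    rw [Finset.inter_self, Finset.inter_self, card_FF_pt] at h2
    have := card_FF_lt _ hcon
    omega
  choose φ hφ using h1
  have hφinj : Function.Injective φ := by
    intro p q h
    have : π (.pt p) = π (.pt q) := by rw [hφ, hφ, h]
    simpa using hπ this
  have hw : ∀ k p, wt k p ≤ wt (π k) (φ p) := by
    intro k p
    have := hc k (.pt p)
    rwa [hφ, card_inter_pt, card_inter_pt] at this
  -- the order relation
  have hlt : ∀ i j (h : i < j), ∃ h' : φ i < φ j, π (.lt i j h) = .lt (φ i) (φ j) h' := by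
    intro i j h
    have hi := hw (.lt i j h) i
    have hj := hw (.lt i j h) j
    have hne : φ i ≠ φ j := fun he => h.ne (hφinj he)
    simp only [wt, if_true, h.ne', if_false] at hi hj
    cases hk : π (.lt i j h) with
    | pt q =>
      rw [hk] at hi hj
      simp only [wt] at hi hj
      split_ifs at hi hj <;> first | omega | (exfalso; apply hne; simp_all)
    | lt i' j' h' =>
      rw [hk] at hi hj
      simp only [wt] at hi hj
      have e1 : φ j = j' := by
        split_ifs at hj <;> first | omega | assumption
      have e2 : φ i = i' := by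
        split_ifs at hi with h3 h4
        · exact h3
        · exact absurd (h4.trans e1.symm) hne
        · omega
      subst e1 e2
      exact ⟨h', rfl⟩
    | ladder ε hε n =>
      rw [hk] at hj
      simp only [wt] at hj
      split_ifs at hj <;> omega
    | base ε hε =>
      rw [hk] at hj
      simp only [wt] at hj
      split_ifs at hj <;> omega
  have hmono : StrictMono φ := fun i j h => (hlt i j h).1
  -- the base points of the ladders
  have hbase : ∀ ε (h : IsLim ε), ∃ h' : IsLim (φ ε), π (.base ε h) = .base (φ ε) h' ∧
      φ (lad h 0) = lad h' 0 := by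
    intro ε h
    have hlt0 : lad h 0 < ε := lad_lt h 0
    have hi := hw (.base ε h) (lad h 0)
    have hj := hw (.base ε h) ε
    have hlt1 := hmono hlt0
    have hne : φ (lad h 0) ≠ φ ε := hlt1.ne
    simp only [wt, if_true, hlt0.ne', if_false] at hi hj
    cases hk : π (.base ε h) with
    | pt q =>
      rw [hk] at hi hj
      simp only [wt] at hi hj
      split_ifs at hi hj <;> first | omega | (exfalso; apply hne; simp_all)
    | lt i' j' h' =>
      exfalso
      rw [hk] at hi hj
      simp only [wt] at hi hj
      have e1 : φ (lad h 0) = j' := by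
        split_ifs at hi <;> first | omega | assumption
      have e2 : φ ε = i' := by
        split_ifs at hj with h3 h4
        · exact h3
        · exact absurd (e1.trans h4.symm) hne
        · omega
      rw [e1, e2] at hlt1
      exact lt_asymm hlt1 h'
    | ladder ε' hε n =>
      rw [hk] at hi
      simp only [wt] at hi
      split_ifs at hi <;> omega
    | base ε' hε =>
      rw [hk] at hi hj
      simp only [wt] at hi hj
      have e1 : φ (lad h 0) = lad hε 0 := by
        split_ifs at hi <;> first | omega | assumption
      have e2 : φ ε = ε' := by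
        split_ifs at hj with h3 h4
        · exact absurd (e1.trans h3.symm) hne
        · exact h4
        · omega
      subst e2
      exact ⟨hε, rfl, e1⟩
  -- the ladders
  have hladder : ∀ ε (h : IsLim ε) n, ∃ (h' : IsLim (φ ε)) (m : ℕ),
      π (.ladder ε h n) = .ladder (φ ε) h' m ∧
      φ (lad h n) = lad h' m ∧ φ (lad h (n + 1)) = lad h' (m + 1) := by
    intro ε h n
    have hlt01 : lad h n < lad h (n + 1) := lad_mono h (Nat.lt_succ_self n)
    have hlt0 : lad h n < ε := lad_lt h n
    have hlt1 : lad h (n + 1) < ε := lad_lt h (n + 1)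
    have hi := hw (.ladder ε h n) (lad h n)
    have hj := hw (.ladder ε h n) (lad h (n + 1))
    have hk := hw (.ladder ε h n) ε
    have hne1 : φ (lad h n) ≠ φ ε := (hmono hlt0).ne
    have hne2 : φ (lad h (n + 1)) ≠ φ ε := (hmono hlt1).ne
    have hne3 : φ (lad h n) ≠ φ (lad h (n + 1)) := (hmono hlt01).ne
    simp only [wt, if_true, hlt01.ne', hlt0.ne', hlt1.ne', if_false] at hi hj hk
    cases hk' : π (.ladder ε h n) with
    | pt q =>
      rw [hk'] at hi hj
      simp only [wt] at hi hj
      split_ifs at hi hj <;> first | omega | (exfalso; apply hne3; simp_all)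
    | lt i' j' h' =>
      exfalso
      rw [hk'] at hi hj hk
      simp only [wt] at hi hj hk
      split_ifs at hi hj hk <;> first | omega | (apply hne1; simp_all; done) | (apply hne2; simp_all; done) | (apply hne3; simp_all; done)
    | ladder ε' hε m =>
      rw [hk'] at hi hj hk
      simp only [wt] at hi hj hk
      have e1 : φ ε = ε' := by
        split_ifs at hk <;> first | omega | assumption
      have e2 : φ (lad h (n + 1)) = lad hε (m + 1) := by
        split_ifs at hj with h3 h4 h5
        · omega
        · exact h4
        · exact absurd (h5.trans e1.symm) hne2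
        · omega
      have e3 : φ (lad h n) = lad hε m := by
        split_ifs at hi with h3 h4 h5
        · exact h3
        · exact absurd (h4.trans e2.symm) hne3
        · exact absurd (h5.trans e1.symm) hne1
        · omega
      subst e1
      exact ⟨hε, m, rfl, e3, e2⟩
    | base ε' hε =>
      exfalso
      rw [hk'] at hi hj hk
      simp only [wt] at hi hj hk
      split_ifs at hi hj hk <;> first | omega | (apply hne1; simp_all; done) | (apply hne2; simp_all; done) | (apply hne3; simp_all; done)
  have hall : ∀ ε (h : IsLim ε) n, ∃ h' : IsLim (φ ε), φ (lad h n) = lad h' n := by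
    intro ε h n
    induction n with
    | zero =>
      obtain ⟨h', -, h2⟩ := hbase ε h
      exact ⟨h', h2⟩
    | succ n ih =>
      obtain ⟨h', h2⟩ := ih
      obtain ⟨h'', m, -, h3, h4⟩ := hladder ε h n
      refine ⟨h', ?_⟩
      have : m = n := (lad_mono h').injective (h3.symm.trans h2)
      rw [h4, this]
  have htr : ∀ (ε ε' : P) (h : IsLim ε) (h' : IsLim ε'), ε' = ε → ∀ n, lad h' n = lad h n := by
    intro ε ε' h h' he n
    subst he
    rfl
  have hid : ∀ p, φ p = p := by
    by_contra hcon
    push Not at hcon
    obtain ⟨δ, hδ⟩ := hcon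
    have hδ' : δ < φ δ := lt_of_le_of_ne (hmono.le_apply) (Ne.symm hδ)
    have hs : StrictMono (fun n => φ^[n] δ) := hmono.strictMono_iterate_of_lt_map hδ'
    obtain ⟨ε, hε⟩ : ∃ ε, IsLUB (Set.range fun n => φ^[n] δ) ε := by
      have hne : (upperBounds (Set.range fun n => φ^[n] δ)).Nonempty :=
        ⟨⊤, fun _ _ => le_top⟩
      let wf := (wellFounded_lt : WellFounded (α := P) (· < ·))
      refine ⟨wf.min _ hne, wf.min_mem _ hne, ?_⟩
      intro b hb
      exact wf.min_le hb
    have hlim : IsLim ε := ⟨_, hs, hε⟩
    have hstep : ∀ n, φ (φ^[n] δ) = φ^[n + 1] δ := fun n =>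
      (Function.iterate_succ_apply' φ n δ).symm
    have hlt' : ∀ p, p < ε → φ p < ε := by
      intro p hp
      obtain ⟨_, ⟨m, rfl⟩, hm⟩ := (lt_isLUB_iff hε).1 hp
      calc φ p < φ (φ^[m] δ) := hmono hm
        _ = φ^[m + 1] δ := hstep m
        _ ≤ ε := hε.1 ⟨m + 1, rfl⟩
    obtain ⟨h', -⟩ := hall ε hlim 0
    have h'' : ∀ n, φ (lad hlim n) = lad h' n := by
      intro n
      obtain ⟨_, h2⟩ := hall ε hlim n
      exact h2
    have hle : φ ε ≤ ε := by
      apply (lad_lub h').2
      rintro _ ⟨n, rfl⟩
      rw [← h'' n]
      exact (hlt' _ (lad_lt hlim n)).le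
    have heq : φ ε = ε := le_antisymm hle hmono.le_apply
    have hfix : ∀ n, φ (lad hlim n) = lad hlim n := fun n =>
      (h'' n).trans (htr _ _ hlim h' heq n)
    have hδε : δ < ε := lt_of_lt_of_le hδ' (hε.1 ⟨1, rfl⟩)
    obtain ⟨_, ⟨n, rfl⟩, hn⟩ := (lt_isLUB_iff (lad_lub hlim)).1 hδε
    have hbd : ∀ k, φ^[k] δ ≤ lad hlim n := by
      intro k
      induction k with
      | zero => exact hn.le
      | succ k ih =>
        rw [← hstep, ← hfix n]
        exact hmono.monotone ih
    have : ε ≤ lad hlim n := by
      apply hε.2
      rintro _ ⟨k, rfl⟩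
      exact hbd k
    exact absurd (lad_lt hlim n) (not_lt.2 this)
  -- conclusion
  cases k with
  | pt p => rw [hφ, hid]
  | lt i j h =>
    obtain ⟨h', h2⟩ := hlt i j h
    rw [h2]
    simp only [hid]
  | ladder ε h n =>
    obtain ⟨h', m, h2, h3, -⟩ := hladder ε h n
    have h4 : m = n := by
      rw [hid] at h3
      rw [htr _ _ h h' (hid ε)] at h3
      exact ((lad_mono h).injective h3).symm
    rw [h2, h4]
    simp only [hid]
  | base ε h =>
    obtain ⟨h', h2, -⟩ := hbase ε h
    rw [h2]
    simp only [hid]

end Ladder

/-- Rigid families of finite sets exist over every index set. -/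
theorem rigid_family (I : Type u) : ∃ (L : Type u) (_ : Nonempty L) (_ : DecidableEq L)
    (F : I → Finset L), ∀ π : I → I, Function.Injective π →
      (∀ i j, (F i ∩ F j).card ≤ (F (π i) ∩ F (π j)).card) → ∀ i, π i = i := by
  classical
  rcases finite_or_infinite I with hI | hI
  · have := Fintype.ofFinite I
    let e := Fintype.equivFin I
    refine ⟨ULift.{u} ℕ, ⟨⟨0⟩⟩, inferInstance,
      fun i => (Finset.range (e i + 1)).map ⟨ULift.up, ULift.up_injective⟩, ?_⟩
    intro π hπ hc
    have h1 : ∀ i, (e i : ℕ) ≤ e (π i) := by
      intro i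
      have := hc i i
      simpa using this
    have hb : Function.Bijective π := Finite.injective_iff_bijective.1 hπ
    have h2 : ∑ i, (e (π i) : ℕ) = ∑ i, (e i : ℕ) := hb.sum_comp (fun i => (e i : ℕ))
    have h3 := (Finset.sum_eq_sum_iff_of_le (fun i _ => h1 i)).1 h2.symm
    intro i
    have h4 := h3 i (Finset.mem_univ i)
    exact e.injective (Fin.ext h4.symm)
  · let : LinearOrder I := linearOrderOfSTO (WellOrderingRel (α := I))
    have hwf : WellFoundedLT I := ⟨WellOrderingRel.isWellOrder.wf⟩
    let P := WithTop I
    have hcard : Nonempty (I ≃ Idx P) := by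
      rw [← Cardinal.eq]
      apply le_antisymm
      · apply Cardinal.mk_le_of_injective (f := fun i : I => Idx.pt ((i : WithTop I) : P))
        intro i j h
        have h2 : ((i : WithTop I) : P) = (j : WithTop I) := by injection h
        exact WithTop.coe_injective h2
      · have hP : Cardinal.mk P = Cardinal.mk I := by
          show Cardinal.mk (Option I) = _
          rw [Cardinal.mk_option, Cardinal.add_one_eq (Cardinal.aleph0_le_mk I)]
        have hinj : Function.Injective (fun k : Idx P => (match k with
            | .pt p => ((p, p), (0, 0))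
            | .lt i j _ => ((i, j), (1, 0))
            | .ladder ε _ n => ((ε, ε), (2, n))
            | .base ε _ => ((ε, ε), (3, 0)) : (P × P) × (ℕ × ℕ))) := by
          intro k k' h
          cases k <;> cases k' <;> simp_all
        calc Cardinal.mk (Idx P) ≤ Cardinal.mk ((P × P) × (ℕ × ℕ)) :=
              Cardinal.mk_le_of_injective hinj
          _ = Cardinal.mk I := by
              simp only [Cardinal.mk_prod, Cardinal.lift_id, Cardinal.lift_id', hP,
                Cardinal.mk_nat, Cardinal.aleph0_mul_aleph0, Cardinal.lift_aleph0]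
              rw [Cardinal.mul_eq_self (Cardinal.aleph0_le_mk I)]
              simp
    obtain ⟨e⟩ := hcard
    refine ⟨P × ℕ, ⟨(⊤, 0)⟩, inferInstance, fun i => FF (e i), ?_⟩
    intro π hπ hc i
    have := rigid_idx (fun k => e (π (e.symm k)))
      (e.injective.comp (hπ.comp e.symm.injective))
      (by
        intro k k'
        have := hc (e.symm k) (e.symm k')
        simp only [Equiv.apply_symm_apply] at this
        convert this) (e i)
    simp only [Equiv.symm_apply_apply] at this
    exact e.injective this

end Pool.Agent.H50
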